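import Pool.Agent.U207.PU.Main

set_option autoImplicit false

/-!
# Puncturing Brody-special varieties with group actions: reduction to invariant subsets

Let `X` be a complex quasi-projective variety in a projective space and `Z` a closed subset of
codimension at least two. Let `X` be stable under some linear automorphisms of the projective space,
namely the invertible values of a set `G` of matrices `M(s)` with polynomial entries in one variable
`s`, such that the identity is among the values of each `M`. So each `M` is a rational curve in the
group of linear automorphisms of `X` through the identity.

For example let a connected linear algebraic group act on `X`. If `X` is normal (for instance smooth),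
then by theorems of Sumihiro and Mumford `X` has an embedding in a projective space such that the
action is linear. The group is generated by rational curves through the identity: the one-parameter
subgroups isomorphic to the additive group, `exp (s N)` for nilpotent matrices `N`, or to the
multiplicative group, `diag (s ^ a i)`, where one can suppose that `a i ≥ 0`, since scalars act
trivially on the projective space. For this choice of `G` the transformations generated by the
values of the `M` in `G` are the elements of the group, up to scalars.

The theorem: let `Z'` be the largest subset of `Z` which is stable under these transformations. Then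
`X ∖ Z` is Brody-special if and only if `X ∖ Z'` is Brody-special. In particular, if no point of `X`
has its whole orbit in `Z`, and `X` is Brody-special, then `X ∖ Z` is Brody-special.

So Q1 holds for `X` and `Z` if `Z` does not contain an orbit, for instance if `Z` has smaller
dimension than all the orbits, and it holds for `X` and all `Z` if `X` has no orbit whose closure has
codimension at least two; and for `X` with the action of a connected linear algebraic group, Q1 is a
question about the closed subsets `Z` which are stable under the group. For example, for the products
`H × Y` of a connected linear algebraic group `H` with a variety `Y`, these are the products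
`H × Z''` with `Z''` closed in `Y`. Smoothness of `X` is not used.

The proof. Let `M` be in `G` and let `Z₁` be the set of the points `x` of `Z` such that `M(s) x` is
in `Z` for all `s`. Let `f` be a holomorphic map from `ℂ` to `X ∖ Z₁` with Zariski dense image. The
points `x` such that `M(s) x` is in `Z` for some `s` are in a closed subset `H` of codimension one,
because the codimension of `Z` is at least two and there is one parameter `s`. As `f` is dense, the
set of the `z` with `f(z)` in `H` is countable. For each such `z`, the set of the `s` for which
`M(s) f(z)` is in `Z` is finite, because `f(z)` is not in `Z₁`. Hence for all `s` outside of a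
countable set, the map `M(s) f` from `ℂ` to `X` avoids `Z`, and it has a Zariski dense image. The
theorem follows by Noetherian induction.

The definitions are in `Pool/Agent/U207/PU/Defs.lean`. A quasi-projective variety is given by the
cone over it, a locally closed set of nonzero vectors, stable under nonzero scalars, with prime
vanishing ideal (`IsQuasiProjective`). A holomorphic map from `ℂ` to a projective space is given by
entire homogeneous coordinates without common zeros (`IsBrodySpecial`).
-/

namespace Pool.Agent.Results.MP_cd3a7b_ag.GroupActions

open MvPolynomial Pool.Agent.U207.PU

/-- Let `X` be a quasi-projective variety over the complex numbers, `G` a set of rational curves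
through the identity in the group of linear automorphisms of `X`, and `Z` a closed subset, given by
the set `S` of homogeneous polynomials, such that `X ∩ Z` has codimension at least two in `X`. Then
`X ∖ Z` is Brody-special if and only if `X ∖ Z'` is Brody-special, where `Z'` is the largest subset of
`Z` which is stable under the transformations generated by the curves in `G`. If no point of `X` has
its orbit under these transformations in `Z`, and `X` is Brody-special, then `X ∖ Z` is
Brody-special. -/
theorem result {n : ℕ} {X : Set (Fin n → ℂ)} (hX : IsQuasiProjective X)
    (G : Set (Matrix (Fin n) (Fin n) (Polynomial ℂ))) (hG : ∀ M ∈ G, IsFamily X M)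
    (S : Set (MvPolynomial (Fin n) ℂ)) (hS : ∀ P ∈ S, ∃ d : ℕ, P.IsHomogeneous d)
    (hc : CodimAtLeastTwo X (zeroLocus ℂ (Ideal.span S))) :
    (IsBrodySpecial (X \ zeroLocus ℂ (Ideal.span S)) ↔
      IsBrodySpecial (X \ invariantPart G (zeroLocus ℂ (Ideal.span S)))) ∧
    ((∀ x ∈ X, ∃ A ∈ transformations G, A.mulVec x ∉ zeroLocus ℂ (Ideal.span S)) →
      IsBrodySpecial X → IsBrodySpecial (X \ zeroLocus ℂ (Ideal.span S))) := by
  have hZ : ∀ x ∈ zeroLocus ℂ (Ideal.span S), ∀ c : ℂ, c ≠ 0 →
      c • x ∈ zeroLocus ℂ (Ideal.span S) := by
    intro x hx c _
    rw [zeroLocus_span] at hx ⊢
    intro P hP
    obtain ⟨d, hd⟩ := hS P hP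
    have h1 := hx P hP
    rw [aeval_eq_eval] at h1 ⊢
    rw [eval_smul_hom hd, h1, mul_zero]
  have hinv : invariantPart G (zeroLocus ℂ (Ideal.span S)) ⊆ zeroLocus ℂ (Ideal.span S) := by
    intro x hx
    have h1 := hx 1 (Submonoid.one_mem _)
    rwa [Matrix.one_mulVec] at h1
  refine ⟨⟨?_, main hX hG hZ hc⟩, fun horb hb => main hX hG hZ hc ?_⟩
  · rintro ⟨u, hu, huX, hud⟩
    refine ⟨u, hu, fun z => ⟨(huX z).1, fun h => (huX z).2 (hinv h)⟩, ?_⟩
    intro P d hP hPu x hx
    have h1 := vanish_of_open hX (exists_notMem hX hc) (le_refl _) (hud P d hP hPu)
    have h2 := (mem_vanishingIdeal_iff.1 h1) x hx.1
    rwa [aeval_eq_eval] at h2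
  · have h1 : X \ invariantPart G (zeroLocus ℂ (Ideal.span S)) = X := by
      refine Set.Subset.antisymm Set.diff_subset fun x hxX => ⟨hxX, fun hx => ?_⟩
      obtain ⟨A, hA, hAx⟩ := horb x hxX
      exact hAx (hx A hA)
    rw [h1]
    exact hb

end Pool.Agent.Results.MP_cd3a7b_ag.GroupActions
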